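import Pool.Agent.S09975

/-!
# Locke's conjecture in its original form: `[2k] = k + 2`

`Q n` is the graph on binary strings of length `n`, adjacent when they differ in exactly one
coordinate. A fault is a set of deleted vertices; it is neutral if it has equally many even and
odd vertices. A graph is Hamiltonian if some cycle passes through all its vertices. For every `k`
the least positive `m` such that for all `n ≥ m` the deletion of any neutral fault with `2k`
vertices from `Q n` leaves a Hamiltonian graph is exactly `k + 2`.
-/

set_option autoImplicit false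

namespace Pool.Agent.Results.MP_8a5648_co.LockeExact

/-- The `n`-dimensional hypercube: binary strings of length `n`, adjacent when they differ in
exactly one coordinate. -/
def Q (n : ℕ) : SimpleGraph (Fin n → Bool) where
  Adj x y := ∃! i, x i ≠ y i
  symm := by
    constructor
    rintro x y ⟨i, hi, hu⟩
    exact ⟨i, Ne.symm hi, fun j hj => hu j (Ne.symm hj)⟩
  loopless := by
    constructor
    rintro x ⟨i, hi, -⟩
    exact hi rfl

/-- The number of ones of a binary string. -/
def ones {n : ℕ} (x : Fin n → Bool) : ℕ := (Finset.univ.filter (fun i => x i = true)).card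

/-- `F` contains as many strings with an even as with an odd number of ones. -/
def Neutral {n : ℕ} (F : Finset (Fin n → Bool)) : Prop :=
  (F.filter (fun x => Even (ones x))).card = (F.filter (fun x => Odd (ones x))).card

/-- `G` has a cycle passing through every vertex. -/
def Hamiltonian {V : Type} (G : SimpleGraph V) : Prop :=
  ∃ (v : V) (p : G.Walk v v), p.IsCycle ∧ ∀ w, w ∈ p.support

/-- The graph left when the vertices of `F` are deleted from the `n`-cube. -/
def faulty (n : ℕ) (F : Finset (Fin n → Bool)) : SimpleGraph {x : Fin n → Bool // x ∉ F} :=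
  (Q n).comap Subtype.val

theorem Q_eq (n : ℕ) :
    Q n = SimpleGraph.fromRel (fun x y : Fin n → Bool => hammingDist x y = 1) := by
  have key : ∀ x y : Fin n → Bool, hammingDist x y = 1 ↔ ∃! i, x i ≠ y i := by
    intro x y
    unfold hammingDist
    rw [Finset.card_eq_one]
    constructor
    · rintro ⟨i, hi⟩
      have h1 : i ∈ (Finset.univ.filter (fun i => x i ≠ y i)) := by rw [hi]; simp
      refine ⟨i, by simpa using h1, fun j hj => ?_⟩
      have h2 : j ∈ (Finset.univ.filter (fun i => x i ≠ y i)) := by simpa using hj
      rw [hi] at h2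
      simpa using h2
    · rintro ⟨i, hi, hu⟩
      refine ⟨i, ?_⟩
      ext j
      simp only [Finset.mem_filter, Finset.mem_univ, true_and, Finset.mem_singleton]
      constructor
      · intro hj; exact hu j hj
      · rintro rfl; exact hi
  ext x y
  rw [SimpleGraph.fromRel_adj, key, key]
  show (∃! i, x i ≠ y i) ↔ _
  constructor
  · intro h
    refine ⟨?_, Or.inl h⟩
    rintro rfl
    obtain ⟨i, hi, -⟩ := h
    exact hi rfl
  · rintro ⟨-, h | h⟩
    · exact h
    · obtain ⟨i, hi, hu⟩ := h
      exact ⟨i, Ne.symm hi, fun j hj => hu j (Ne.symm hj)⟩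

theorem upper (k n : ℕ) (hn : k + 2 ≤ n) (F : Finset (Fin n → Bool)) (hF : Neutral F)
    (hc : F.card = 2 * k) : Hamiltonian (faulty n F) := by
  have h1 : (F.filter (fun x => Even (ones x))).card +
      (F.filter (fun x => ¬ Even (ones x))).card = F.card :=
    Finset.card_filter_add_card_filter_not (s := F) (fun x => Even (ones x))
  have h2 : (F.filter (fun x => Odd (ones x))) = F.filter (fun x => ¬ Even (ones x)) := by
    apply Finset.filter_congr
    intro x _
    exact Nat.not_even_iff_odd.symm
  unfold Neutral at hF
  rw [h2] at hF
  have h3 := Pool.Agent.S09975.result k n hn F (by unfold ones at *; omega)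
    (by unfold ones at *; omega)
  rw [← Q_eq] at h3
  have h4 : Fintype.card {x : Fin n → Bool | x ∉ F} ≠ 1 := by
    have h5 : Fintype.card {x : Fin n → Bool | x ∉ F} = 2 ^ n - F.card := by
      rw [Fintype.card_of_finset' (p := {x : Fin n → Bool | x ∉ F})
        (Finset.univ \ F) (by intro x; simp)]
      rw [Finset.card_sdiff_of_subset (Finset.subset_univ F), Finset.card_univ]
      simp
    rw [h5, hc]
    have h6 : 2 * k + 4 ≤ 2 ^ (k + 2) := by
      clear * -
      induction k with
      | zero => norm_num
      | succ m ih => rw [show m + 1 + 2 = (m + 2) + 1 from rfl, pow_succ]; omega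
    have h7 : 2 ^ (k + 2) ≤ 2 ^ n := Nat.pow_le_pow_right (by norm_num) hn
    omega
  obtain ⟨a, p, hp⟩ := h3 h4
  exact ⟨a, p, hp.isCycle, hp.mem_support⟩

/-- the unit vector `e_i` -/
def unit {n : ℕ} (i : Fin n) : Fin n → Bool := fun j => decide (j = i)

theorem ones_unit {n : ℕ} (i : Fin n) : ones (unit i) = 1 := by
  unfold ones unit
  rw [Finset.card_eq_one]
  exact ⟨i, by ext j; simp⟩

theorem lower (k : ℕ) : ∃ F : Finset (Fin (k + 1) → Bool), Neutral F ∧ F.card = 2 * k ∧
    ¬ Hamiltonian (faulty (k + 1) F) := by
  classical
  set a : Fin k → (Fin (k + 1) → Bool) := fun i => unit i.castSucc with ha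
  set b : Fin k → (Fin (k + 1) → Bool) :=
    fun i j => decide (j = i.castSucc ∨ j = Fin.last k) with hb
  have hba : ∀ i, ones (b i) = 2 := by
    intro i
    unfold ones
    rw [Finset.card_eq_two]
    refine ⟨i.castSucc, Fin.last k, Fin.castSucc_ne_last i, ?_⟩
    ext j
    simp [hb]
  have haa : ∀ i, ones (a i) = 1 := fun i => ones_unit _
  have ainj : Function.Injective a := by
    intro i j h
    have := congrFun h i.castSucc
    simpa [ha, unit] using this
  have binj : Function.Injective b := by
    intro i j h
    have := congrFun h i.castSucc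
    simpa [hb, Fin.castSucc_ne_last i] using this
  set A : Finset (Fin (k + 1) → Bool) := Finset.univ.image a with hA
  set B : Finset (Fin (k + 1) → Bool) := Finset.univ.image b with hB
  have hAc : A.card = k := by
    rw [hA, Finset.card_image_of_injective _ ainj, Finset.card_univ, Fintype.card_fin]
  have hBc : B.card = k := by
    rw [hB, Finset.card_image_of_injective _ binj, Finset.card_univ, Fintype.card_fin]
  have hAo : ∀ x ∈ A, ones x = 1 := by
    intro x hx
    rw [hA, Finset.mem_image] at hx
    obtain ⟨i, -, rfl⟩ := hx
    exact haa i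
  have hBo : ∀ x ∈ B, ones x = 2 := by
    intro x hx
    rw [hB, Finset.mem_image] at hx
    obtain ⟨i, -, rfl⟩ := hx
    exact hba i
  have hdisj : Disjoint A B := by
    rw [Finset.disjoint_left]
    intro x hx hy
    have := hAo x hx
    have := hBo x hy
    omega
  refine ⟨A ∪ B, ?_, ?_, ?_⟩
  · unfold Neutral
    have e1 : (A ∪ B).filter (fun x => Even (ones x)) = B := by
      ext x
      rw [Finset.mem_filter, Finset.mem_union]
      constructor
      · rintro ⟨hx | hx, hx2⟩
        · rw [hAo x hx] at hx2
          exact absurd hx2 (by decide)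
        · exact hx
      · intro hx
        exact ⟨Or.inr hx, by rw [hBo x hx]; decide⟩
    have e2 : (A ∪ B).filter (fun x => Odd (ones x)) = A := by
      ext x
      rw [Finset.mem_filter, Finset.mem_union]
      constructor
      · rintro ⟨hx | hx, hx2⟩
        · exact hx
        · rw [hBo x hx] at hx2
          exact absurd hx2 (by decide)
      · intro hx
        exact ⟨Or.inl hx, by rw [hAo x hx]; decide⟩
    rw [e1, e2, hAc, hBc]
  · rw [Finset.card_union_of_disjoint hdisj, hAc, hBc]
    ring
  · rintro ⟨v, p, hp, hs⟩
    -- the zero vector has a single neighbour that is not deleted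
    have h0 : (fun _ => false : Fin (k + 1) → Bool) ∉ A ∪ B := by
      intro h
      have h1 : ones (fun _ => false : Fin (k + 1) → Bool) = 0 := by
        unfold ones
        simp
      rw [Finset.mem_union] at h
      rcases h with h | h
      · have := hAo _ h
        omega
      · have := hBo _ h
        omega
    set z : {x : Fin (k + 1) → Bool // x ∉ A ∪ B} := ⟨fun _ => false, h0⟩ with hz
    have huniq : ∀ w, (faulty (k + 1) (A ∪ B)).Adj z w → w.1 = unit (Fin.last k) := by
      intro w hw
      obtain ⟨i, hi, hu⟩ : ∃! i, (fun _ => false : Fin (k + 1) → Bool) i ≠ w.1 i := hw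
      have hwi : w.1 = unit i := by
        funext j
        unfold unit
        by_cases hj : j = i
        · subst hj
          simpa using hi
        · have : ¬ (false ≠ w.1 j) := fun h => hj (hu j h)
          simp [hj]
          simpa using this
      have hil : i = Fin.last k := by
        by_contra hne
        have hmem : unit i ∈ A := by
          rw [hA, Finset.mem_image]
          refine ⟨i.castPred hne, Finset.mem_univ _, ?_⟩
          rw [ha]
          simp
        apply w.2
        rw [hwi]
        exact Finset.mem_union_left _ hmem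
      rw [hwi, hil]
    have hq := hp.rotate (u := z) (hs z)
    set q := p.rotate z (hs z) with hqd
    have hnn : ¬ q.Nil := hq.not_nil
    have h1 : (faulty (k + 1) (A ∪ B)).Adj z q.snd := q.adj_snd hnn
    have h2 : (faulty (k + 1) (A ∪ B)).Adj q.penultimate z := q.adj_penultimate hnn
    exact hq.snd_ne_penultimate (Subtype.ext ((huniq _ h1).trans (huniq _ h2.symm).symm))

/-- **Locke's conjecture**: `[2k] = k + 2` for all `k`. -/
theorem result (k : ℕ) :
    IsLeast {m : ℕ | 0 < m ∧ ∀ n, m ≤ n → ∀ F : Finset (Fin n → Bool), Neutral F →
      F.card = 2 * k → Hamiltonian (faulty n F)} (k + 2) := by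
  refine ⟨⟨by omega, fun n hn F hF hc => upper k n hn F hF hc⟩, ?_⟩
  rintro m ⟨-, hm⟩
  by_contra hlt
  obtain ⟨F, h1, h2, h3⟩ := lower k
  exact h3 (hm (k + 1) (by omega) F h1 h2)

end Pool.Agent.Results.MP_8a5648_co.LockeExact
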